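import Pool.Agent.H937.QS.Stm3
import Pool.Graph.R_seed8.H920R2.Cu10

/-!
Project QS, task COP: tensor powers of subalgebras embed.
-/

set_option autoImplicit false

open scoped Matrix TensorProduct
open Pool.Agent.H937.QS
open Pool.Agent.W559.Wr

universe u

namespace Pool.Agent.H120.QS.COP

section

variable {k K M : Type u} [Field k] [Field K] [Algebra k K] [Field M] [Algebra k M]
  {n : ℕ}

/-- the product of the values -/
noncomputable def Fm (e : Fin n → K →ₐ[k] M) (B : Subalgebra k K) :
    MultilinearMap k (fun _ : Fin n => B) M :=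
  (MultilinearMap.mkPiAlgebra k (Fin n) M).compLinearMap
    fun i => ((e i).comp B.val).toLinearMap

theorem Fm_apply (e : Fin n → K →ₐ[k] M) (B : Subalgebra k K) (x : Fin n → B) :
    Fm e B x = ∏ i, e i (x i) := by
  change MultilinearMap.mkPiAlgebra k (Fin n) M (fun i => e i (x i)) = _
  rw [MultilinearMap.mkPiAlgebra_apply]

/-- the homomorphism from the tensor power -/
noncomputable def gam (e : Fin n → K →ₐ[k] M) (B : Subalgebra k K) :
    (⨂[k] _ : Fin n, B) →ₐ[k] M :=
  PiTensorProduct.liftAlgHom (Fm e B)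
    (by rw [Fm_apply]; simp)
    (by
      intro x y
      rw [Fm_apply, Fm_apply, Fm_apply, ← Finset.prod_mul_distrib]
      refine Finset.prod_congr rfl fun i _ => ?_
      rw [Pi.mul_apply, MulMemClass.coe_mul, map_mul])

theorem gam_tprod (e : Fin n → K →ₐ[k] M) (B : Subalgebra k K) (x : Fin n → B) :
    gam e B (PiTensorProduct.tprod k x) = ∏ i, e i (x i) := by
  change PiTensorProduct.lift (Fm e B) (PiTensorProduct.tprod k x) = _
  rw [PiTensorProduct.lift.tprod, Fm_apply]

theorem gam_single (e : Fin n → K →ₐ[k] M) (B : Subalgebra k K) (q : Fin n) (b : B) :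
    gam e B (PiTensorProduct.singleAlgHom q b) = e q b := by
  change PiTensorProduct.lift (Fm e B) (PiTensorProduct.tprod k (MonoidHom.mulSingle _ q b)) = _
  rw [PiTensorProduct.lift.tprod, Fm_apply, Finset.prod_eq_single q]
  · rw [MonoidHom.mulSingle_apply, Pi.mulSingle_eq_same]
  · intro l _ hl
    rw [MonoidHom.mulSingle_apply, Pi.mulSingle_eq_of_ne hl, OneMemClass.coe_one, map_one]
  · intro h
    exact absurd (Finset.mem_univ q) h

/-- the map to the tensor power of the field -/
noncomputable def iot (n : ℕ) (B : Subalgebra k K) : (⨂[k] _ : Fin n, B) →ₗ[k] (⨂[k] _ : Fin n, K) :=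
  PiTensorProduct.map fun _ => B.val.toLinearMap

theorem iot_injective (n : ℕ) (B : Subalgebra k K) : Function.Injective (iot n B) := by
  have hinj : LinearMap.ker (B.val.toLinearMap) = ⊥ :=
    LinearMap.ker_eq_bot.2 Subtype.val_injective
  obtain ⟨p, hp⟩ := LinearMap.exists_leftInverse_of_injective _ hinj
  have h1 : (PiTensorProduct.map fun _ : Fin n => p) ∘ₗ iot n B = LinearMap.id := by
    apply PiTensorProduct.ext
    apply MultilinearMap.ext
    intro x
    change (PiTensorProduct.map fun _ : Fin n => p) (iot n B (PiTensorProduct.tprod k x)) =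
      PiTensorProduct.tprod k x
    unfold iot
    rw [PiTensorProduct.map_tprod, PiTensorProduct.map_tprod]
    congr 1
    funext i
    exact LinearMap.congr_fun hp (x i)
  intro x y hxy
  have h2 := LinearMap.congr_fun h1 x
  have h3 := LinearMap.congr_fun h1 y
  rw [LinearMap.comp_apply, LinearMap.id_apply] at h2 h3
  rw [← h2, ← h3, hxy]

theorem gam_eq (e : Fin n → K →ₐ[k] M) (B : Subalgebra k K) :
    (gam e B).toLinearMap = (mulM e) ∘ₗ iot n B := by
  apply PiTensorProduct.ext
  apply MultilinearMap.ext
  intro x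
  change gam e B (PiTensorProduct.tprod k x) = mulM e (iot n B (PiTensorProduct.tprod k x))
  rw [gam_tprod]
  unfold iot mulM
  rw [PiTensorProduct.map_tprod, PiTensorProduct.lift.tprod]
  change _ = MultilinearMap.mkPiAlgebra k (Fin n) M (fun i => e i (x i))
  rw [MultilinearMap.mkPiAlgebra_apply]

end

/-- the factors -/
noncomputable def jj (k K : Type u) [Field k] [Field K] [Algebra k K] (n : ℕ) (B : Subalgebra k K)
    (q : Fin n) : B →ₐ[k] (⨂[k] _ : Fin n, B) :=
  PiTensorProduct.singleAlgHom (R := k) (A := fun _ => B) q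

theorem t_COP : S_COP.{u} := by
  intro k K M _ _ _ _ _ n e he B
  have hc : IsCop k (jj k K n B) := by
    have h := Pool.Agent.H920R2.isCoprod_pi (k := k) (ι := Fin n) (A := fun _ => B)
    exact ⟨h.lift, h.ext⟩
  refine ⟨⨂[k] _ : Fin n, B, inferInstance, inferInstance, jj k K n B, gam e B, hc, ?_, ?_⟩
  · intro x y hxy
    apply iot_injective n B
    apply he
    have h1 := LinearMap.congr_fun (gam_eq e B) x
    have h2 := LinearMap.congr_fun (gam_eq e B) y
    rw [LinearMap.comp_apply] at h1 h2
    rw [← h1, ← h2]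
    exact hxy
  · intro b q
    exact gam_single e B q b

end Pool.Agent.H120.QS.COP
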